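import Mathlib
import Pool.Agent.V1118.CoxLimit

/-!
# The catchment set of limit roots need not be closed
-/

open Filter Topology
open scoped LinearAlgebra.Projectivization
open Pool.Agent.V1118.Cox

namespace Pool.Agent.Results.MP_241ca8_al.CatchmentNotClosed

/-- The golden ratio. -/
noncomputable def ph : ℝ := (1 + √5) / 2

lemma ph_sq : ph ^ 2 = ph + 1 := by
  have h := Real.sq_sqrt (show (0 : ℝ) ≤ 5 by norm_num)
  unfold ph
  linear_combination h / 4

lemma ph_gt : 1 < ph := by
  have h1 : (1 : ℝ) < √5 := by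
    rw [Real.lt_sqrt] <;> norm_num
  unfold ph
  linarith

lemma ph_lt : ph < 2 := by
  have h1 : √5 < 3 := by
    rw [Real.sqrt_lt'] <;> norm_num
  unfold ph
  linarith

/-- A hyperbolic element. -/
noncomputable def w : (Fin 3 → ℝ) ≃ₗ[ℝ] (Fin 3 → ℝ) := sr 0 * (sr 1 * sr 2)

lemma w_mem : w ∈ uni.W := mul_mem (sr_mem 0) (mul_mem (sr_mem 1) (sr_mem 2))

/-- A space-like eigenvector of `w`. -/
def u : Fin 3 → ℝ := ![1, -1, 1]

/-- A light-like eigenvector of `w`. -/
noncomputable def ym : Fin 3 → ℝ := ![1, ph + 1, 3 * ph + 2]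

lemma w_u : w u = -u := by
  change R 0 (R 1 (R 2 u)) = -u
  rw [R_two, R_one, R_zero]
  funext j
  fin_cases j <;> simp [u]

lemma w_ym : w ym = (13 - 8 * ph) • ym := by
  change R 0 (R 1 (R 2 ym)) = _
  rw [R_two, R_one, R_zero]
  have h := ph_sq
  funext j
  fin_cases j <;> simp [ym] <;> nlinarith [h]

/-- The direction that is not in the catchment set. -/
noncomputable def z : Fin 3 → ℝ := ![2, ph, 3 * ph + 3]

lemma z_eq : z = u + ym := by
  funext j
  fin_cases j <;> simp [z, u, ym] <;> ring

lemma w_sq_pow (n : ℕ) : ((w ^ 2) ^ n) z = u + ((13 - 8 * ph) ^ 2) ^ n • ym := by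
  induction n with
  | zero =>
    simp [z_eq]
  | succ n ih =>
    rw [pow_succ']
    change (w ^ 2) (((w ^ 2) ^ n) z) = _
    rw [ih]
    have h1 : ∀ x, (w ^ 2) x = w (w x) := fun x => rfl
    rw [h1, map_add, map_add, w_u, map_neg, w_u, map_smul, map_smul, w_ym, map_smul, w_ym]
    rw [smul_smul, smul_smul, neg_neg]
    congr 2
    ring

lemma z_ne : z ≠ 0 := by
  intro h
  have := congrFun h 0
  simp [z] at this

lemma u_ne : u ≠ 0 := by
  intro h
  have := congrFun h 0
  simp [u] at this

/-- **The catchment set of limit roots is not closed** for the universal Coxeter group of rank three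
with all off-diagonal values of the form equal to `-1`. -/
theorem result : uni.IsLorentzian ∧ ¬ IsClosed uni.catchment := by
  refine ⟨lorentzian_uni, fun hcl => ?_⟩
  -- `z` is in the closure of the catchment set
  have hz : Projectivization.mk ℝ z z_ne ∈ uni.catchment := by
    obtain ⟨m, hm⟩ : ∃ m : ℕ → ℤ, m = fun n : ℕ => ⌊ph * ((n : ℝ) + 1)⌋ := ⟨_, rfl⟩
    have hmpos : ∀ n, 0 < m n := by
      intro n
      rw [hm]
      refine Int.floor_pos.2 ?_
      have h1 := ph_gt
      have h2 : (1 : ℝ) ≤ (n : ℝ) + 1 := by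
        have : (0 : ℝ) ≤ n := Nat.cast_nonneg n
        linarith
      nlinarith
    have hlim : Tendsto (fun n => (m n : ℝ) / ((n : ℝ) + 1)) atTop (𝓝 ph) := by
      rw [tendsto_iff_dist_tendsto_zero]
      refine squeeze_zero (fun _ => dist_nonneg) (g := fun n : ℕ => 1 / ((n : ℝ) + 1)) ?_
        tendsto_one_div_add_atTop_nhds_zero_nat
      intro n
      have hn : (0 : ℝ) < (n : ℝ) + 1 := by positivity
      rw [Real.dist_eq, show (m n : ℝ) / ((n : ℝ) + 1) - ph =
        ((m n : ℝ) - ph * (n + 1)) / ((n : ℝ) + 1) by field_simp, abs_div, abs_of_pos hn]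
      refine div_le_div_of_nonneg_right ?_ hn.le
      rw [hm]
      simp only
      have h5 := Int.floor_le (ph * ((n : ℝ) + 1))
      have h6 := Int.lt_floor_add_one (ph * ((n : ℝ) + 1))
      rw [abs_le]
      constructor <;> linarith
    have hcont : Continuous (fun s : ℝ => (![2, s, 3 * s + 3] : Fin 3 → ℝ)) := by
      refine continuous_pi fun j => ?_
      fin_cases j
      · change Continuous (fun s : ℝ => (2 : ℝ))
        fun_prop
      · change Continuous (fun s : ℝ => s)
        fun_prop
      · change Continuous (fun s : ℝ => 3 * s + 3)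
        fun_prop
    have hne : ∀ s : ℝ, (![2, s, 3 * s + 3] : Fin 3 → ℝ) ≠ 0 := by
      intro s h
      have := congrFun h 0
      simp at this
    have hlim2 := tendsto_mk (fun n => hne ((m n : ℝ) / ((n : ℝ) + 1))) z_ne
      ((hcont.tendsto ph).comp hlim)
    refine hcl.mem_of_tendsto hlim2 (Eventually.of_forall fun n => ?_)
    have hn : (0 : ℝ) < (n : ℝ) + 1 := by positivity
    have hmp : (0 : ℝ) < m n := by exact_mod_cast hmpos n
    have hne2 : (![2 * ((n : ℝ) + 1), m n, 3 * m n + 3 * ((n : ℝ) + 1)] : Fin 3 → ℝ) ≠ 0 := by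
      intro h
      have h2 := congrFun h 1
      simp at h2
      exact hmp.ne' (by exact_mod_cast h2)
    have heq : Projectivization.mk ℝ _ (hne ((m n : ℝ) / ((n : ℝ) + 1))) =
        Projectivization.mk ℝ _ hne2 := by
      rw [Projectivization.mk_eq_mk_iff']
      refine ⟨1 / ((n : ℝ) + 1), ?_⟩
      funext j
      fin_cases j
      · simp
        field_simp
      · simp
        field_simp
      · simp
        field_simp
    rw [heq]
    change uni.limitSet _ = uni.limitRoots
    rw [limitRoots_uni]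
    refine limitSet_int _ hne2 ?_ ?_
    · intro j
      fin_cases j
      · exact ⟨2 * ((n : ℤ) + 1), by simp⟩
      · exact ⟨m n, by simp⟩
      · exact ⟨3 * m n + 3 * ((n : ℤ) + 1), by simp⟩
    · simp
      exact (hmpos n).ne'
  -- but its orbit accumulates at the space-like direction of `u`
  have hacc : Projectivization.mk ℝ u u_ne ∈ uni.limitSet (Projectivization.mk ℝ z z_ne) := by
    obtain ⟨ε, hε⟩ : ∃ ε : ℝ, ε = (13 - 8 * ph) ^ 2 := ⟨_, rfl⟩
    have hsq := ph_sq
    have h1 := ph_gt
    have h2 := ph_lt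
    have hph : 1.6 < ph ∧ ph < 1.65 := by
      constructor <;> nlinarith
    have hε0 : 0 < ε := by
      rw [hε]
      have : 13 - 8 * ph ≠ 0 := by
        intro h
        have h3 : ph = 13 / 8 := by linarith
        rw [h3] at hsq
        norm_num at hsq
      positivity
    have hε1 : ε < 1 := by
      rw [hε]
      have h3 : |13 - 8 * ph| < 1 := by
        rw [abs_lt]
        constructor <;> linarith [hph.1, hph.2]
      have h4 := sq_lt_one_iff_abs_lt_one (13 - 8 * ph) |>.2 h3
      exact h4
    have hne : ∀ n : ℕ, u + ε ^ n • ym ≠ 0 := by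
      intro n h
      have h3 := congrFun h 0
      simp [u, ym] at h3
      have : 0 < ε ^ n := pow_pos hε0 n
      linarith
    have hlim : Tendsto (fun n : ℕ => u + ε ^ n • ym) atTop (𝓝 u) := by
      have h3 := tendsto_pow_atTop_nhds_zero_of_lt_one hε0.le hε1
      have h4 : Tendsto (fun n : ℕ => u + ε ^ n • ym) atTop (𝓝 (u + (0 : ℝ) • ym)) :=
        tendsto_const_nhds.add (h3.smul_const ym)
      simpa using h4
    refine accPt_of_seq _ (tendsto_mk hne u_ne hlim) (Eventually.of_forall fun n => ⟨?_, ?_⟩)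
    · intro h
      rw [Projectivization.mk_eq_mk_iff'] at h
      obtain ⟨a, ha⟩ := h
      have h3 := congrFun ha 0
      have h4 := congrFun ha 1
      simp [u, ym] at h3 h4
      have : 0 < ε ^ n := pow_pos hε0 n
      nlinarith
    · refine ⟨(w ^ 2) ^ n, pow_mem (pow_mem w_mem 2) n, ?_⟩
      rw [act_mk, Projectivization.mk_eq_mk_iff']
      refine ⟨1, ?_⟩
      rw [one_smul, w_sq_pow, hε]
  have h3 : uni.limitSet (Projectivization.mk ℝ z z_ne) = uni.limitRoots := hz
  rw [h3, limitRoots_uni] at hacc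
  have h4 := form_of_qn hacc
  rw [form_self] at h4
  simp [u] at h4
  norm_num at h4

end Pool.Agent.Results.MP_241ca8_al.CatchmentNotClosed
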